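import Pool.Agent.Helper74.CW.Defs

/-!
# Singular matrices in spaces of matrices of dimension at most two
-/

namespace Pool.Agent.Helper74.CW

open Module Polynomial

variable {F K : Type*} [Field F] [Field K] [Algebra F K]

/-- the binary cubic form, dehomogenised -/
noncomputable def smP (A B : Matrix (Fin 3) (Fin 3) F) : F[X] :=
  Matrix.det ((X : F[X]) • A.map C + B.map C)

lemma smP_eval (A B : Matrix (Fin 3) (Fin 3) F) (t : F) :
    (smP A B).eval t = (t • A + B).det := by
  unfold smP
  rw [← Polynomial.coe_evalRingHom, RingHom.map_det]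
  congr 1
  ext i j
  simp [RingHom.mapMatrix_apply, Matrix.map_apply, Matrix.add_apply, Matrix.smul_apply]
  exact mul_comm _ _

lemma smP_natDegree (A B : Matrix (Fin 3) (Fin 3) F) : (smP A B).natDegree ≤ 3 := by
  have := Polynomial.natDegree_det_X_add_C_le A B
  simpa [smP] using this

lemma smP_coeff (A B : Matrix (Fin 3) (Fin 3) F) : (smP A B).coeff 3 = A.det := by
  have := Polynomial.coeff_det_X_add_C_card A B
  simpa [smP] using this

lemma sm_card_units [Finite F] : Nat.card Fˣ = Nat.card F - 1 := Nat.card_units F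

open Classical in
lemma sm_roots [Finite F] (A B : Matrix (Fin 3) (Fin 3) F) :
    ∃ m ∈ ({0, 1, 2, 3, Nat.card F + 1} : Finset ℕ),
      Nat.card {t : F // (t • A + B).det = 0} + (if A.det = 0 then 1 else 0) = m := by
  refine ⟨_, ?_, rfl⟩
  by_cases hp : smP A B = 0
  · have hA : A.det = 0 := by rw [← smP_coeff A B, hp, coeff_zero]
    have h1 : ∀ t : F, (t • A + B).det = 0 := fun t => by
      rw [← smP_eval, hp, eval_zero]
    have h2 : Nat.card {t : F // (t • A + B).det = 0} = Nat.card F :=
      Nat.card_congr (Equiv.subtypeUnivEquiv h1)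
    rw [h2, if_pos hA]
    simp
  · have h1 : Nat.card {t : F // (t • A + B).det = 0} ≤ (smP A B).natDegree := by
      have h2 : Nat.card {t : F // (t • A + B).det = 0} = (smP A B).roots.toFinset.card := by
        have h3 : Nat.card {t : F // (t • A + B).det = 0} =
            Nat.card {t // t ∈ (smP A B).roots.toFinset} := by
          refine Nat.card_congr (Equiv.subtypeEquivRight fun t => ?_)
          rw [← smP_eval]
          simp [hp]
        rw [h3, Nat.card_eq_fintype_card, Fintype.card_coe]
      rw [h2]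
      exact (Multiset.toFinset_card_le _).trans (Polynomial.card_roots' _)
    have h3 : Nat.card {t : F // (t • A + B).det = 0} + (if A.det = 0 then 1 else 0) ≤ 3 := by
      split_ifs with hA
      · have h4 : (smP A B).natDegree ≤ 2 := by
          by_contra h5
          have h6 : (smP A B).natDegree = 3 := by
            have := smP_natDegree A B
            omega
          have h7 : (smP A B).leadingCoeff = 0 := by
            rw [leadingCoeff, h6, smP_coeff, hA]
          exact hp (leadingCoeff_eq_zero.1 h7)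
        omega
      · have := smP_natDegree A B
        omega
    generalize Nat.card {t : F // (t • A + B).det = 0} + (if A.det = 0 then 1 else 0) = m at h3
    interval_cases m <;> simp

open Classical in
lemma sm_count [Finite F] (N : Submodule F (Matrix (Fin 3) (Fin 3) F))
    (A B : Matrix (Fin 3) (Fin 3) F) (hA : A ∈ N) (hB : B ∈ N)
    (hi : ∀ a b : F, a • A + b • B = 0 → a = 0 ∧ b = 0)
    (hs : ∀ Y ∈ N, ∃ a b : F, Y = a • A + b • B) :
    sing N = (Nat.card F - 1) *
      (Nat.card {t : F // (t • A + B).det = 0} + (if A.det = 0 then 1 else 0)) := by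
  have hc : Nat.card {u : Unit // A.det = 0} = if A.det = 0 then 1 else 0 := by
    split_ifs with h
    · rw [Nat.card_congr (Equiv.subtypeUnivEquiv fun _ => h)]
      simp
    · have : IsEmpty {u : Unit // A.det = 0} := ⟨fun u => h u.2⟩
      simp
  have hAne : A ≠ 0 := by
    rintro rfl
    have := (hi 1 0 (by simp)).1
    exact one_ne_zero this
  let φ : Fˣ × ({t : F // (t • A + B).det = 0} ⊕ {u : Unit // A.det = 0}) →
      {Y : Matrix (Fin 3) (Fin 3) F // Y ∈ N ∧ Y ≠ 0 ∧ Y.det = 0} := fun z =>
    match z with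
    | (c, Sum.inl t) => ⟨(c : F) • (t.1 • A + B),
        N.smul_mem _ (N.add_mem (N.smul_mem _ hA) hB), by
          intro h
          have h1 : ((c : F) * t.1) • A + (c : F) • B = 0 := by
            rw [← h, smul_add, smul_smul]
          exact c.ne_zero (hi _ _ h1).2, by rw [Matrix.det_smul, t.2, mul_zero]⟩
    | (c, Sum.inr u) => ⟨(c : F) • A, N.smul_mem _ hA, smul_ne_zero c.ne_zero hAne, by
          rw [Matrix.det_smul, u.2, mul_zero]⟩
  have hφ : Function.Bijective φ := by
    constructor
    · rintro ⟨c, t | u⟩ ⟨c', t' | u'⟩ h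
      · have h1 : (c : F) • (t.1 • A + B) = (c' : F) • (t'.1 • A + B) := congrArg Subtype.val h
        have h2 : ((c : F) * t.1 - (c' : F) * t'.1) • A + ((c : F) - c') • B = 0 := by
          have h3 : (c : F) • (t.1 • A + B) - (c' : F) • (t'.1 • A + B) = 0 := by
            rw [h1, sub_self]
          rw [← h3]
          module
        obtain ⟨h4, h5⟩ := hi _ _ h2
        have h6 : c = c' := Units.ext (sub_eq_zero.1 h5)
        subst h6
        have h7 : (c : F) * t.1 = c * t'.1 := sub_eq_zero.1 h4
        have h8 : t = t' := Subtype.ext (mul_left_cancel₀ c.ne_zero h7)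
        rw [h8]
      · exfalso
        have h1 : (c : F) • (t.1 • A + B) = (c' : F) • A := congrArg Subtype.val h
        have h2 : ((c : F) * t.1 - (c' : F)) • A + (c : F) • B = 0 := by
          have h3 : (c : F) • (t.1 • A + B) - (c' : F) • A = 0 := by rw [h1, sub_self]
          rw [← h3]
          module
        exact c.ne_zero (hi _ _ h2).2
      · exfalso
        have h1 : (c : F) • A = (c' : F) • (t'.1 • A + B) := congrArg Subtype.val h
        have h2 : ((c' : F) * t'.1 - (c : F)) • A + (c' : F) • B = 0 := by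
          have h3 : (c' : F) • (t'.1 • A + B) - (c : F) • A = 0 := by rw [h1, sub_self]
          rw [← h3]
          module
        exact c'.ne_zero (hi _ _ h2).2
      · have h1 : (c : F) • A = (c' : F) • A := congrArg Subtype.val h
        have h2 : c = c' := Units.ext (smul_left_injective F hAne h1)
        subst h2
        have h3 : u = u' := Subtype.ext rfl
        rw [h3]
    · rintro ⟨Y, hY, hY0, hYd⟩
      obtain ⟨a, b, rfl⟩ := hs Y hY
      by_cases hb : b = 0
      · subst hb
        have ha : a ≠ 0 := by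
          rintro rfl
          simp at hY0
        have hd : A.det = 0 := by
          rw [zero_smul, add_zero, Matrix.det_smul] at hYd
          rcases mul_eq_zero.1 hYd with h | h
          · exact absurd (pow_eq_zero_iff (by simp) |>.1 h) ha
          · exact h
        refine ⟨(Units.mk0 a ha, Sum.inr ⟨(), hd⟩), Subtype.ext ?_⟩
        show a • A = a • A + (0 : F) • B
        rw [zero_smul, add_zero]
      · have hd : ((b⁻¹ * a) • A + B).det = 0 := by
          have h1 : a • A + b • B = b • ((b⁻¹ * a) • A + B) := by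
            rw [smul_add, smul_smul, mul_inv_cancel_left₀ hb]
          rw [h1, Matrix.det_smul] at hYd
          rcases mul_eq_zero.1 hYd with h | h
          · exact absurd (pow_eq_zero_iff (by simp) |>.1 h) hb
          · exact h
        refine ⟨(Units.mk0 b hb, Sum.inl ⟨b⁻¹ * a, hd⟩), Subtype.ext ?_⟩
        show b • ((b⁻¹ * a) • A + B) = a • A + b • B
        rw [smul_add, smul_smul, mul_inv_cancel_left₀ hb]
  unfold sing
  rw [← Nat.card_congr (Equiv.ofBijective φ hφ), Nat.card_prod, Nat.card_sum, hc, sm_card_units]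

theorem small_N [Finite F] (N : Submodule F (Matrix (Fin 3) (Fin 3) F)) (h : finrank F N ≤ 2) :
    ∃ m ∈ ({0, 1, 2, 3, Nat.card F + 1} : Finset ℕ), sing N = (Nat.card F - 1) * m := by
  classical
  have h012 : finrank F N = 0 ∨ finrank F N = 1 ∨ finrank F N = 2 := by omega
  rcases h012 with h0 | h1 | h2
  · refine ⟨0, by simp, ?_⟩
    have hN : N = ⊥ := Submodule.finrank_eq_zero.1 h0
    have : IsEmpty {Y : Matrix (Fin 3) (Fin 3) F // Y ∈ N ∧ Y ≠ 0 ∧ Y.det = 0} := by
      refine ⟨fun Y => Y.2.2.1 ?_⟩
      have h3 : ∀ Z ∈ N, Z = 0 := fun Z hZ => by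
        rw [hN] at hZ
        simpa using hZ
      exact h3 _ Y.2.1
    unfold sing
    simp
  · obtain ⟨v, hv0, hv⟩ := finrank_eq_one_iff'.1 h1
    have hv0' : (v : Matrix (Fin 3) (Fin 3) F) ≠ 0 := fun hh => hv0 (Subtype.ext hh)
    have hv' : ∀ Y ∈ N, ∃ c : F, c • (v : Matrix (Fin 3) (Fin 3) F) = Y := by
      intro Y hY
      obtain ⟨c, hc⟩ := hv ⟨Y, hY⟩
      exact ⟨c, congrArg Subtype.val hc⟩
    by_cases hd : (v : Matrix (Fin 3) (Fin 3) F).det = 0
    · refine ⟨1, by simp, ?_⟩
      let φ : Fˣ → {Y : Matrix (Fin 3) (Fin 3) F // Y ∈ N ∧ Y ≠ 0 ∧ Y.det = 0} := fun c =>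
        ⟨(c : F) • (v : Matrix (Fin 3) (Fin 3) F), N.smul_mem _ v.2,
          smul_ne_zero c.ne_zero hv0', by rw [Matrix.det_smul, hd, mul_zero]⟩
      have hφ : Function.Bijective φ := by
        constructor
        · intro c c' hcc
          exact Units.ext (smul_left_injective F hv0' (congrArg Subtype.val hcc))
        · rintro ⟨Y, hY, hY0, hYd⟩
          obtain ⟨c, rfl⟩ := hv' Y hY
          have hc : c ≠ 0 := by
            rintro rfl
            simp at hY0
          exact ⟨Units.mk0 c hc, rfl⟩
      unfold sing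
      rw [← Nat.card_congr (Equiv.ofBijective φ hφ), sm_card_units, mul_one]
    · refine ⟨0, by simp, ?_⟩
      have : IsEmpty {Y : Matrix (Fin 3) (Fin 3) F // Y ∈ N ∧ Y ≠ 0 ∧ Y.det = 0} := by
        refine ⟨fun Y => ?_⟩
        obtain ⟨c, hc⟩ := hv' Y.1 Y.2.1
        have h3 := Y.2.2.2
        rw [← hc, Matrix.det_smul] at h3
        rcases mul_eq_zero.1 h3 with h4 | h4
        · have h5 : c = 0 := pow_eq_zero_iff (by simp) |>.1 h4
          apply Y.2.2.1
          rw [← hc, h5, zero_smul]
        · exact hd h4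
      unfold sing
      simp
  · have hfin : Module.Finite F N := Module.finite_of_finrank_pos (by omega)
    let b : Basis (Fin 2) F N := finBasisOfFinrankEq F N h2
    have hi : ∀ x y : F, x • (b 0 : Matrix (Fin 3) (Fin 3) F) + y • (b 1 : Matrix (Fin 3) (Fin 3) F) = 0 →
        x = 0 ∧ y = 0 := by
      intro x y hxy
      have h3 : ∑ i, (![x, y] : Fin 2 → F) i • b i = 0 := by
        rw [Fin.sum_univ_two]
        exact Subtype.ext hxy
      have h4 := Fintype.linearIndependent_iff.1 b.linearIndependent _ h3
      exact ⟨h4 0, h4 1⟩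
    have hs : ∀ Y ∈ N, ∃ x y : F, Y = x • (b 0 : Matrix (Fin 3) (Fin 3) F) +
        y • (b 1 : Matrix (Fin 3) (Fin 3) F) := by
      intro Y hY
      have h3 := b.sum_repr ⟨Y, hY⟩
      rw [Fin.sum_univ_two] at h3
      exact ⟨_, _, (congrArg Subtype.val h3).symm⟩
    obtain ⟨m, hm, hmeq⟩ := sm_roots (b 0 : Matrix (Fin 3) (Fin 3) F) (b 1)
    refine ⟨m, hm, ?_⟩
    rw [← hmeq]
    exact sm_count N _ _ (b 0).2 (b 1).2 hi hs

end Pool.Agent.Helper74.CW
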